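import Pool.Agent.Helper919_HM.Final

set_option autoImplicit false

/-!
# Hajnal–Máté graphs without regressive Hajnal–Máté graphs

There is a forcing notion with the countable chain condition which forces that there is a
Hajnal–Máté graph, but no regressive Hajnal–Máté graph.
-/

namespace Pool.Agent.Results.MP_aaa72f_lc.NoRegressiveHM

open Pool.Agent.Helper919.DQ Pool.Agent.Helper919.HM

theorem result : ∃ (P : Type) (_ : Preorder P), Nonempty P ∧ CCC P ∧ ∀ p : P,
    p ∈ fex (fun G : W → W → Set P => HMGraph G) ∧
      p ∈ fnot (fex fun G : W → W → Set P => RegressiveHMGraph G) := main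

end Pool.Agent.Results.MP_aaa72f_lc.NoRegressiveHM
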